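import Pool.Agent.H44.JT4

open MeasureTheory ProbabilityTheory Measure Pool.Agent.H44.JS

theorem Pool.Agent.Results.MP_db3298_pr.Q1True.result :
    ∃ (lam : ℝ) (Fl Fr : Measure ℝ) (w w' : Fin 3 → ℝ), 0 < lam ∧
      (∀ F ∈ [Fl, Fr], IsProbabilityMeasure F ∧ F (Set.Iic 0) = 0 ∧ Integrable (fun x => x) F) ∧
      (∀ i, 0 ≤ w i) ∧ (∀ i, 0 ≤ w' i) ∧ Stable lam Fl Fr w ∧ ¬ Stable lam Fl Fr w' := by
  refine ⟨99 / 100, dirac (97 / 25), dirac (97 / 50), 0, fun _ => 10 ^ 17, by norm_num, ?_,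
    fun _ => le_rfl, fun _ => by norm_num, stabC, fun ⟨ν, _, _, h⟩ => unstabD h⟩
  simp only [List.mem_cons, List.not_mem_nil, or_false, forall_eq_or_imp, forall_eq]
  exact ⟨⟨inferInstance, by norm_num, integrable_dirac (by simp)⟩,
    ⟨inferInstance, by norm_num, integrable_dirac (by simp)⟩⟩
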