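import Pool.Agent.H44.JS7

open MeasureTheory ProbabilityTheory Measure Pool.Agent.H44.JS

theorem Pool.Agent.Results.MP_db3298_pr.Q2True.result :
    ∃ (lam : ℝ) (Fl Fr Fl' Fr' : Measure ℝ), 0 < lam ∧
      (∀ F ∈ [Fl, Fr, Fl', Fr'],
        IsProbabilityMeasure F ∧ F (Set.Iic 0) = 0 ∧ Integrable (fun x => x) F) ∧
      ∫ x, x ∂Fl = ∫ x, x ∂Fl' ∧ ∫ x, x ∂Fr = ∫ x, x ∂Fr' ∧
      Stable lam Fl Fr 0 ∧ ¬ Stable lam Fl' Fr' 0 := by
  have h1 : ∀ r : ℝ, Integrable (fun x => x) ((2⁻¹ : ENNReal) • dirac r) := fun r =>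
    (integrable_dirac (by simp)).smul_measure (by simp)
  refine ⟨99 / 100, dirac 2, Fr 3 5, dirac 2, Fr 4 4, by norm_num, ?_, rfl, ?_, stabA, unstabB⟩
  · simp only [List.mem_cons, List.not_mem_nil, or_false, forall_eq_or_imp, forall_eq]
    refine ⟨⟨inferInstance, by simp, integrable_dirac (by simp)⟩,
      ⟨inferInstance, by simp [Fr], (h1 3).add_measure (h1 5)⟩,
      ⟨inferInstance, by simp, integrable_dirac (by simp)⟩,
      ⟨inferInstance, by simp [Fr], (h1 4).add_measure (h1 4)⟩⟩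
  · rw [Fr, Fr, integral_add_measure (h1 3) (h1 5), integral_add_measure (h1 4) (h1 4)]
    simp
    norm_num
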